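import Pool.Agent.helper37.NF.Spec

set_option autoImplicit false

namespace Pool.Agent.helper37.NF

open Finset Pool.Agent.NK

theorem AVG_id (a i : ℕ) (hi : 1 ≤ i) :
    (a : ℝ) * ((a - 1).choose i : ℝ) = ((a : ℝ) - i) * (a.choose i : ℝ) := by
  cases a with
  | zero =>
    rw [Nat.choose_eq_zero_of_lt (show 0 < i by omega)]
    simp
  | succ a =>
    have h := Nat.choose_mul_succ_eq a i
    rw [Nat.add_sub_cancel]
    by_cases hle : i ≤ a + 1
    · have h' : ((a.choose i * (a + 1) : ℕ) : ℝ) = (((a + 1).choose i * (a + 1 - i) : ℕ) : ℝ) := by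
        rw [h]
      rw [Nat.cast_mul, Nat.cast_mul, Nat.cast_sub hle] at h'
      linarith
    · rw [Nat.choose_eq_zero_of_lt (show a < i by omega),
        Nat.choose_eq_zero_of_lt (show a + 1 < i by omega)]
      simp

theorem AVG : AVG_stmt := by
  intro i j N κ hi hj hN h0
  have key : ∀ n : ℕ, N ≤ n → ∀ a b : ℕ, a + b = n →
      (a.choose i : ℝ) * (b.choose j : ℝ) ≤ κ * (n.choose (i + j) : ℝ) := by
    intro n hn
    induction n, hn using Nat.le_induction with
    | base => exact h0
    | succ n hn ih =>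
      intro a b hab
      have hA := AVG_id a i hi
      have hB := AVG_id b j hj
      have hT := AVG_id (n + 1) (i + j) (by omega)
      rw [Nat.add_sub_cancel] at hT
      have h1 : (a : ℝ) * (((a - 1).choose i : ℝ) * (b.choose j : ℝ)) ≤
          (a : ℝ) * (κ * (n.choose (i + j) : ℝ)) := by
        rcases Nat.eq_zero_or_pos a with ha | ha
        · subst ha; simp
        · exact mul_le_mul_of_nonneg_left (ih (a - 1) b (by omega)) (Nat.cast_nonneg _)
      have h2 : (b : ℝ) * ((a.choose i : ℝ) * ((b - 1).choose j : ℝ)) ≤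
          (b : ℝ) * (κ * (n.choose (i + j) : ℝ)) := by
        rcases Nat.eq_zero_or_pos b with hb | hb
        · subst hb; simp
        · exact mul_le_mul_of_nonneg_left (ih a (b - 1) (by omega)) (Nat.cast_nonneg _)
      have hs : (a : ℝ) + b = (n : ℝ) + 1 := by exact_mod_cast hab
      have hpos : (0 : ℝ) < (n : ℝ) + 1 - ((i : ℝ) + j) := by
        have : ((i + j : ℕ) : ℝ) ≤ (n : ℝ) := by exact_mod_cast le_trans hN hn
        push_cast at this
        linarith
      have hL : ((n : ℝ) + 1 - ((i : ℝ) + j)) * ((a.choose i : ℝ) * (b.choose j : ℝ)) =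
          (a : ℝ) * (((a - 1).choose i : ℝ) * (b.choose j : ℝ)) +
          (b : ℝ) * ((a.choose i : ℝ) * ((b - 1).choose j : ℝ)) := by
        have e1 : (a : ℝ) * (((a - 1).choose i : ℝ) * (b.choose j : ℝ)) =
            (((a : ℝ) - i) * (a.choose i : ℝ)) * (b.choose j : ℝ) := by
          rw [← hA]; ring
        have e2 : (b : ℝ) * ((a.choose i : ℝ) * ((b - 1).choose j : ℝ)) =
            (((b : ℝ) - j) * (b.choose j : ℝ)) * (a.choose i : ℝ) := by
          rw [← hB]; ring
        rw [e1, e2, ← hs]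
        ring
      have hR : ((n : ℝ) + 1 - ((i : ℝ) + j)) * (κ * ((n + 1).choose (i + j) : ℝ)) =
          (a : ℝ) * (κ * (n.choose (i + j) : ℝ)) + (b : ℝ) * (κ * (n.choose (i + j) : ℝ)) := by
        have e3 : (a : ℝ) * (κ * (n.choose (i + j) : ℝ)) + (b : ℝ) * (κ * (n.choose (i + j) : ℝ)) =
            κ * (((n : ℝ) + 1) * (n.choose (i + j) : ℝ)) := by
          rw [← hs]; ring
        push_cast at hT
        rw [e3, hT]
        ring
      refine le_of_mul_le_mul_left ?_ hpos
      rw [hL, hR]
      exact add_le_add h1 h2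
  intro a b hab
  exact key (a + b) hab a b rfl

end Pool.Agent.helper37.NF
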