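import Pool.Agent.helper4.NF.SpecA

set_option autoImplicit false

open Complex MeasureTheory

namespace Pool.Agent.NF

open Pool.Agent.helper84.DM Pool.Agent.helper78.ED Pool.Agent.DH Pool.Agent.ZD

theorem CHG : CHG_stmt := by
  intro g hg F
  have h1 := integral_image_eq_integral_abs_deriv_smul (s := Set.univ) (f := Real.exp)
    (f' := Real.exp) MeasurableSet.univ
    (fun x _ => (Real.hasDerivAt_exp x).hasDerivWithinAt) Real.exp_injective.injOn
    (fun y : ℝ => ((g y : ℝ) : ℂ) * F y)
  rw [Set.image_univ, Real.range_exp, setIntegral_univ] at h1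
  have h2 : ∫ y in Set.Ioi (0 : ℝ), ((g y : ℝ) : ℂ) * F y = ∫ y : ℝ, ((g y : ℝ) : ℂ) * F y := by
    apply setIntegral_eq_integral_of_forall_compl_eq_zero
    intro y hy
    rw [hg y (by simpa using hy)]
    simp
  rw [← h2, h1]
  apply integral_congr_ae
  filter_upwards with x
  rw [abs_of_pos (Real.exp_pos x), Complex.real_smul]
  push_cast
  ring

end Pool.Agent.NF
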